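import Pool.Agent.helper83.GR2.Main

/-!
# MP_baa4d7_al: rigidity of the alternating sums of Dade's invariant conjecture

Let `O_p(G) = 1`, `1 → G → E → A → 1` exact, `B` the block of `χ` and `a ∈ A`. For an automorphism `σ` of the field of
complex numbers and a linear character `l` of `G` we count, for every radical `p`-chain `C`, the irreducible characters
`ψ` of `N_G(C)` with `b(ψ)^G = B` which are fixed by `(a, σ, l)`. The alternating sum over the classes of radical
chains depends only on `a`, on the action of `σ` on the `|G|`-th roots of unity of order prime to `p`, and on the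
values of `l` on `p`-regular elements. For `σ = 1`, `l = 1` it is the sum of Dade's alternating sums over all `d` and
all `U` which contain `a`. Consequently the characters with exactly `m ≥ 2` Galois conjugates cancel.
-/

set_option autoImplicit false

open Pool.Agent.helper58.DC Pool.Agent.GR2

namespace Pool.Agent.Results.MP_baa4d7_al.GaloisRigidity

theorem result (p : ℕ) (hp : p.Prime) (M : Ideal (integralClosure ℤ ℂ)) (hM : M.IsMaximal)
    (hpM : (p : integralClosure ℤ ℂ) ∈ M) (G E A : Type) [Group G] [Group E] [Group A] [Finite G]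
    [Finite E] (X : Extension G E A) (hG : IsOp p (⊤ : Subgroup G) ⊥) (χ : G → ℂ) (hχ : χ ∈ Irr G)
    (a : A) :
    (∀ (σ τ : ℂ ≃+* ℂ) (l m : G →* ℂˣ),
      (∀ ζ : ℂ, ζ ^ Nat.card G = 1 → ¬ p ∣ orderOf ζ → σ ζ = τ ζ) →
      (∀ g : G, ¬ p ∣ orderOf g → l g = m g) →
        fixSum X p M χ a σ l = fixSum X p M χ a τ m) ∧
    fixSum X p M χ a (RingEquiv.refl ℂ) 1 = dadeSum X p M χ a ∧
    ∀ (σ : ℂ ≃+* ℂ) (j m : ℕ), (p ≠ 2 ∨ 2 ≤ j) →
      ((a = 1 ∧ σ = RingEquiv.refl ℂ) ∨ (1 ≤ j ∧
        ∃ o : ℕ, ¬ p ∣ o ∧ a ^ o = 1 ∧ ∀ ζ : ℂ, ζ ^ Nat.card G = 1 → (σ ^ o) ζ = ζ)) →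
      orbSum X p j m M χ a σ = if m = 1 then fixSum X p M χ a σ 1 else 0 :=
  have hS : GR.Setup p M := ⟨hp, hM, hpM⟩
  ⟨fun σ τ l m h1 h2 => rigid p M hS G E A X hG χ hχ a σ τ l m h1 h2,
    total p M G E A X χ a,
    fun σ j m h1 h2 => orbit p M hS G E A X hG χ hχ a σ j m h1 h2⟩

end Pool.Agent.Results.MP_baa4d7_al.GaloisRigidity
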