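import Pool.Agent.helper58.DC.All3

/-!
# Dade's invariant conjecture modulo a prime number `q`

`p` is a prime and `M` a maximal ideal of the ring of algebraic integers which contains `p`.
`Dade p M` is Dade's invariant conjecture for `p`. If the block of `χ` is stable under `E` and `U`
is a normal subgroup of index `q ^ k` of `A = E / G`, the alternating sum for `U` is a multiple of
`q ^ k`, because `A` permutes the classes of pairs with stabiliser `U` in orbits of length `q ^ k`.
The theorem says that the conjecture holds for `p` if and only if the number of orbits, counted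
with signs, is always divisible by `q`. For `q = 2` it is enough to know the parity.
-/

set_option autoImplicit false

open Pool.Agent.helper58.DC

namespace Pool.Agent.Results.MP_baa4d7_al.ModPrimeCriterion

theorem result (p q : ℕ) [Fact p.Prime] (hq : q.Prime) (M : Ideal (integralClosure ℤ ℂ))
    (_hM : M.IsMaximal) (_hp : (p : integralClosure ℤ ℂ) ∈ M) :
    Dade p M ↔
      ∀ (G E A : Type) [Group G] [Group E] [Group A] [Finite G] [Finite E]
        (X : Extension G E A),
        IsOp p (⊤ : Subgroup G) ⊥ → ∀ χ ∈ Irr G, PosDefect p M χ →
        (∀ e : E, Induces M (funMap (X.act e) χ) χ) →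
        ∀ (k : ℕ) (U : Subgroup A), U.Normal → U.index = q ^ k →
        ∀ d : ℤ, ((q : ℤ) ^ (k + 1)) ∣ altSum X p M χ d U :=
  All3.dFC p q hq M

end Pool.Agent.Results.MP_baa4d7_al.ModPrimeCriterion
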