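import Mathlib
import Pool.Agent.helper47.SPI.Fin

/-!
# MP_f6e9a2_nt, Q1: arbitrary subsets of two thin structured sets, below the square root barrier

For all `K` and `η > 0` there are `δ > 0` and `p₀` such that for all primes `p > p₀`, all sets `H₁, H₂ ⊆ ZMod p`
with `|H_i + H_i| ≤ K |H_i|` and `|H_i| ≤ p^(1-η)`, all sets `X, Y` of at most `p^δ` translations, every Moebius map
`g(x) = (a x + b)/(c x + d)`, ALL sets `A ⊆ g(X + H₁)`, `-B ⊆ g(Y + H₂)`, all `χ ≠ 1` and all weights `|β_w| ≤ 1`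
`∑_(z ∈ A) |∑_(w ∈ B) β_w χ(z + w)| ≤ p^(-δ) ((p |A| |B|)^(1/2) + |A| |B|)`.
-/

set_option autoImplicit false

open Finset
open scoped Pointwise

namespace Pool.Agent.Results.MP_f6e9a2_nt.SubsetsOfThinSets

theorem result : ∀ (K η : ℝ), 0 < η → ∃ (δ : ℝ) (p₀ : ℕ), 0 < δ ∧ ∀ (p : ℕ) [Fact p.Prime], p₀ < p →
    ∀ (H₁ H₂ X Y A B : Finset (ZMod p)) (a b c d : ZMod p), a * d - b * c ≠ 0 →
      ((H₁ + H₁).card : ℝ) ≤ K * (H₁.card : ℝ) → ((H₂ + H₂).card : ℝ) ≤ K * (H₂.card : ℝ) →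
      (H₁.card : ℝ) ≤ (p : ℝ) ^ (1 - η) → (H₂.card : ℝ) ≤ (p : ℝ) ^ (1 - η) →
      (X.card : ℝ) ≤ (p : ℝ) ^ δ → (Y.card : ℝ) ≤ (p : ℝ) ^ δ →
      (∀ z ∈ A, ∃ x ∈ X + H₁, c * x + d ≠ 0 ∧ z = (a * x + b) / (c * x + d)) →
      (∀ w ∈ B, ∃ y ∈ Y + H₂, c * y + d ≠ 0 ∧ -w = (a * y + b) / (c * y + d)) →
      ∀ χ : MulChar (ZMod p) ℂ, χ ≠ 1 → ∀ β : ZMod p → ℂ, (∀ w, ‖β w‖ ≤ 1) →
        ∑ z ∈ A, ‖∑ w ∈ B, β w * χ (z + w)‖ ≤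
          (p : ℝ) ^ (-δ) * (Real.sqrt (p * (A.card * B.card)) + A.card * B.card) := by
  intro K η hη
  obtain ⟨δ, p₀, hδ, h⟩ := Pool.Agent.SPI.p_MOC K η hη
  exact ⟨δ, p₀, hδ, fun p _ hp H₁ H₂ X Y A B a b c d => h p hp H₁ H₂ X Y A B a b c d⟩

end Pool.Agent.Results.MP_f6e9a2_nt.SubsetsOfThinSets
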